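import Pool.Agent.H45.RSet

open MeasureTheory Filter Topology Metric Pool.Agent.H45.RSet
open scoped Pointwise

namespace Pool.Agent.Results.MP_3b082f_pr.Counter

theorem result : ∃ (X : Type) (_ : NormedAddCommGroup X) (_ : NormedSpace ℝ X), CompleteSpace X ∧
    BConvex X ∧ ∃ (Ω : Type) (_ : MeasurableSpace Ω) (μ : Measure Ω) (_ : IsProbabilityMeasure μ)
      (Ψ : ℕ → Ω → Set X) (U : Set X), Seq μ Ψ U ∧ IsCompact U ∧ ∀ ω, ¬ Tendsto
        (fun n : ℕ => hausdorffDist ((n : ℝ)⁻¹ • ∑ i ∈ Finset.range n, Ψ i ω) U) atTop (𝓝 0) := by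
  obtain ⟨Ω, _, μ, _, Ψ, U, h1, h2, h⟩ := main
  refine ⟨H, _, _, inferInstance, bconvex, Ω, _, μ, inferInstance, Ψ, U, h1, h2, fun ω H => ?_⟩
  have := ge_of_tendsto (H.comp (tendsto_id.const_mul_atTop' two_pos))
    ((eventually_ge_atTop 1).mono (h ω))
  norm_num at this

end Pool.Agent.Results.MP_3b082f_pr.Counter
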